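import Pool.Agent.Y916.Al.Stm
import Pool.Agent.Y535.LG.Part

/-!
# Partial fractions, complex argument
-/

set_option autoImplicit false

open PowerSeries

namespace Pool.Agent.Y419.AL

open Pool.Agent.Y113 Pool.Agent.Y916 Pool.Agent.Y916.Al Pool.Agent.Y535.LG

theorem t_partc : Pool.Agent.Y916.Al.S_partc := by
  intro Θ T h0 hT s hs
  have hne : ∀ θ ∈ Θ, θ ≠ 0 := fun θ hθ h => h0 (h ▸ hθ)
  classical
  refine ⟨fun θ => if θ ∈ Θ then -(aa Θ s θ / θ) else 0, fun θ => ?_, fun x hΘ => ?_⟩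
  · beta_reduce
    split_ifs with hθ
    · have hm : ∀ x ∈ Θ, x ∈ IntermediateField.adjoin ℚ (Θ : Set ℂ) := fun x hx =>
        IntermediateField.subset_adjoin _ _ hx
      refine neg_mem (div_mem (inv_mem (mul_mem (pow_mem (hm θ hθ) _) (prod_mem fun x hx => ?_)))
        (hm θ hθ))
      exact sub_mem (one_mem _) (div_mem (hm x (Finset.mem_of_mem_erase hx)) (hm θ hθ))
    · exact zero_mem _
  · unfold evc
    have h1 : ∀ θ ∈ Θ, HasSum (fun m : ℕ => aa Θ s θ / θ * ((θ * x) ^ m / m))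
        (aa Θ s θ / θ * (-Complex.log (1 - θ * x))) := by
      intro θ hθ
      refine (Complex.hasSum_taylorSeries_neg_log ?_).mul_left _
      rw [norm_mul]
      exact hΘ θ hθ
    have h2 := hasSum_sum h1
    have h3 : (fun m : ℕ => ∑ θ ∈ Θ, aa Θ s θ / θ * ((θ * x) ^ m / m)) = fun m : ℕ =>
        ((coeff m (F T s) : ℚ) : ℂ) * x ^ m := by
      funext m
      rw [coeff_F Θ T h0 hT s hs m, Finset.sum_mul]
      refine Finset.sum_congr rfl fun θ _ => ?_
      rw [mul_pow]
      ring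
    rw [h3] at h2
    rw [h2.tsum_eq]
    refine Finset.sum_congr rfl fun θ hθ => ?_
    beta_reduce
    rw [if_pos hθ]
    ring

end Pool.Agent.Y419.AL
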