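import Pool.Agent.Y916.Al.Stm
import Pool.Agent.Y535.LG.Val
import Pool.Agent.Y419.LB.Base
import Pool.Agent.Y796.LI.Core

/-!
# No polynomial relation of bounded degree between the values at an algebraic point
-/

set_option autoImplicit false

open PowerSeries

namespace Pool.Agent.Y419.AL

open Pool.Agent.Y113 Pool.Agent.Y916 Pool.Agent.Y916.Al Pool.Agent.Y535.LG

/-! ### counting exponents -/

lemma card_le (n D : ℕ) : Fintype.card (Mn n D) ≤ (D + 1) ^ n := by
  have h1 : Fintype.card (Mn n D) ≤ Fintype.card (Fin n → Fin (D + 1)) := by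
    refine Fintype.card_le_of_injective (fun e => e.1) ?_
    intro e e' h
    exact Subtype.ext h
  simpa using h1

lemma one_le_card (n D : ℕ) : 1 ≤ Fintype.card (Mn n D) := by
  have : Nonempty (Mn n D) := ⟨⟨fun _ => 0, by simp⟩⟩
  exact Fintype.card_pos

lemma exists_D (n Δ c : ℕ) : ∃ D : ℕ,
    c * (Fintype.card (Mn n (D + Δ)) - Fintype.card (Mn n D)) ≤ Fintype.card (Mn n (D + Δ)) := by
  by_contra hcon
  push Not at hcon
  set f : ℕ → ℕ := fun D => Fintype.card (Mn n D) with hf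
  have hcon' : ∀ D, f (D + Δ) < c * (f (D + Δ) - f D) := hcon
  have hlt : ∀ D, f D < f (D + Δ) := by
    intro D
    by_contra h
    push Not at h
    have h1 := hcon' D
    rw [Nat.sub_eq_zero_of_le h] at h1
    omega
  have hR : ∀ D, ((f (D + Δ) : ℕ) : ℝ) < c * ((f (D + Δ) : ℝ) - f D) := by
    intro D
    have h1 := hcon' D
    have h2 : (((f (D + Δ) : ℕ) : ℝ)) < ((c * (f (D + Δ) - f D) : ℕ) : ℝ) := by exact_mod_cast h1
    rw [Nat.cast_mul, Nat.cast_sub (hlt D).le] at h2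
    exact h2
  have hpos : ∀ D, (1 : ℝ) ≤ f D := fun D => by exact_mod_cast one_le_card n D
  have hc : (1 : ℝ) < c := by
    by_contra h
    push Not at h
    have h1 := hR 0
    have h2 := hpos 0
    have h3 := hpos (0 + Δ)
    have h4 : ((f 0 : ℕ) : ℝ) < f (0 + Δ) := by exact_mod_cast hlt 0
    nlinarith
  set r : ℝ := c / (c - 1) with hr
  have hc1 : (0 : ℝ) < c - 1 := by linarith
  have hr1 : 1 < r := by
    rw [hr, lt_div_iff₀ hc1]
    linarith
  have hstep : ∀ D, r * f D ≤ f (D + Δ) := by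
    intro D
    rw [hr, div_mul_eq_mul_div, div_le_iff₀ hc1]
    have := hR D
    nlinarith
  have hgrow : ∀ j : ℕ, r ^ j ≤ f (j * Δ) := by
    intro j
    induction j with
    | zero => simpa using hpos 0
    | succ j ih =>
      calc r ^ (j + 1) = r * r ^ j := by ring
        _ ≤ r * f (j * Δ) := mul_le_mul_of_nonneg_left ih (by linarith)
        _ ≤ f (j * Δ + Δ) := hstep _
        _ = f ((j + 1) * Δ) := by rw [add_mul, one_mul]
  have hup : ∀ j : ℕ, (f (j * Δ) : ℝ) ≤ ((Δ : ℝ) + 1) ^ n * ((j : ℝ) + 1) ^ n := by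
    intro j
    have h1 : (f (j * Δ) : ℝ) ≤ ((j * Δ : ℕ) + 1 : ℝ) ^ n := by exact_mod_cast card_le n (j * Δ)
    refine h1.trans ?_
    rw [← mul_pow]
    refine pow_le_pow_left₀ (by positivity) ?_ _
    push_cast
    have h2 : (0 : ℝ) ≤ j := by positivity
    have h3 : (0 : ℝ) ≤ Δ := by positivity
    nlinarith
  have hlim := tendsto_pow_const_div_const_pow_of_one_lt n hr1
  have hδ : (0 : ℝ) < 1 / (((Δ : ℝ) + 1) ^ n * r) := by positivity
  have hev := (hlim.eventually (gt_mem_nhds hδ)).and (Filter.eventually_ge_atTop 1)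
  obtain ⟨j, hj1, hj2⟩ := hev.exists
  obtain ⟨i, rfl⟩ : ∃ i, j = i + 1 := ⟨j - 1, by omega⟩
  have h1 := (hgrow i).trans (hup i)
  have hrp : (0 : ℝ) < r ^ i := by positivity
  rw [div_lt_div_iff₀ (by positivity) (by positivity)] at hj1
  push_cast at hj1
  rw [pow_succ] at hj1
  have hr0 : 0 < r := by linarith
  have h2 : r * (((Δ : ℝ) + 1) ^ n * ((i : ℝ) + 1) ^ n) < r * r ^ i := by nlinarith
  have h3 := lt_of_mul_lt_mul_left h2 hr0.le
  linarith

/-! ### polynomials -/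

lemma toF_surj' {n D : ℕ} {S : Type} [CommSemiring S] (P : MvPolynomial (Fin n) S) (hP : P.totalDegree ≤ D)
    (d : Fin n →₀ ℕ) (hd : d ∈ P.support) : ∃ e : Mn n D, toF e = d := by
  have h1 : (d.sum fun _ k => k) ≤ D := (MvPolynomial.le_totalDegree hd).trans hP
  have h2 : ∑ i, d i ≤ D := by
    rwa [Finsupp.sum_fintype _ _ (fun _ => rfl)] at h1
  have hi : ∀ i, d i < D + 1 := fun i => by
    have := Finset.single_le_sum (f := fun i => d i) (fun _ _ => Nat.zero_le _) (Finset.mem_univ i)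
    omega
  refine ⟨⟨fun i => ⟨d i, hi i⟩, h2⟩, ?_⟩
  ext s
  rfl

lemma aeval_sum' {n D : ℕ} {S S' : Type} [CommSemiring S] [CommSemiring S'] [Algebra S S']
    (P : MvPolynomial (Fin n) S) (hP : P.totalDegree ≤ D) (x : Fin n → S') :
    MvPolynomial.aeval x P = ∑ e : Mn n D, algebraMap S S' (P.coeff (toF e)) * ∏ s, x s ^ (e.1 s : ℕ) := by
  rw [MvPolynomial.aeval_def, MvPolynomial.eval₂_eq']
  have h1 : ∑ d ∈ P.support, (algebraMap S S') (P.coeff d) * ∏ i, x i ^ d i =
      ∑ d ∈ Finset.univ.image (toF (n := n) (Δ := D)),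
        (algebraMap S S') (P.coeff d) * ∏ i, x i ^ d i := by
    refine Finset.sum_subset ?_ ?_
    · intro d hd
      obtain ⟨e, he⟩ := toF_surj' P hP d hd
      exact Finset.mem_image.2 ⟨e, Finset.mem_univ _, he⟩
    · intro d _ hd
      rw [MvPolynomial.notMem_support_iff.1 hd]
      simp
  rw [h1, Finset.sum_image (fun a _ b _ h => toF_inj h)]
  rfl

/-- the coefficient vectors of the multiples `P * X ^ e` -/
noncomputable def vec {n : ℕ} {K : Type} [Field K] (P : MvPolynomial (Fin n) K) {D : ℕ} (D' : ℕ)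
    (e' : Mn n D) (e : Mn n D') : K :=
  MvPolynomial.coeff (toF e) (P * MvPolynomial.monomial (toF e') 1)

lemma deg_toF {n D : ℕ} (e : Mn n D) {K : Type} [Field K] (c : K) :
    (MvPolynomial.monomial (toF e) c).totalDegree ≤ D := by
  refine (MvPolynomial.totalDegree_monomial_le _ _).trans ?_
  have h2 : ((toF e).sum fun _ k => k) = ∑ i, (toF e) i := Finsupp.sum_fintype _ _ (fun _ => rfl)
  have h3 : ∑ i, (toF e) i ≤ D := e.2
  calc _ = ((toF e).sum fun _ k => k) := rfl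
    _ ≤ D := by rw [h2]; exact h3

lemma vec_indep {n Δ D : ℕ} {K : Type} [Field K] (P : MvPolynomial (Fin n) K) (hP0 : P ≠ 0)
    (hP : P.totalDegree ≤ Δ) (g : Mn n D → K)
    (hg : ∀ e : Mn n (D + Δ), ∑ e' : Mn n D, g e' * vec P (D + Δ) e' e = 0) : ∀ e', g e' = 0 := by
  classical
  set W : MvPolynomial (Fin n) K := ∑ e' : Mn n D, MvPolynomial.monomial (toF e') (g e') with hW
  have hWd : W.totalDegree ≤ D := by
    refine MvPolynomial.totalDegree_finsetSum_le fun e' _ => deg_toF e' _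
  have hPW : P * W = ∑ e' : Mn n D, MvPolynomial.C (g e') * (P * MvPolynomial.monomial (toF e') 1) := by
    rw [hW, Finset.mul_sum]
    refine Finset.sum_congr rfl fun e' _ => ?_
    rw [mul_left_comm, MvPolynomial.C_mul_monomial, mul_one]
  have h0 : P * W = 0 := by
    have hd : (P * W).totalDegree ≤ D + Δ := by
      refine (MvPolynomial.totalDegree_mul _ _).trans ?_
      omega
    by_contra hne
    obtain ⟨d, hd'⟩ := MvPolynomial.support_nonempty.2 hne
    obtain ⟨e, he⟩ := toF_surj' _ hd d hd'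
    rw [MvPolynomial.mem_support_iff] at hd'
    apply hd'
    rw [← he, hPW, MvPolynomial.coeff_sum]
    simp only [MvPolynomial.coeff_C_mul]
    exact hg e
  have hW0 : W = 0 := by
    rcases mul_eq_zero.1 h0 with h | h
    · exact absurd h hP0
    · exact h
  intro e'
  have h1 := congrArg (MvPolynomial.coeff (toF e')) hW0
  rw [hW, MvPolynomial.coeff_sum, MvPolynomial.coeff_zero] at h1
  rw [Finset.sum_eq_single e'] at h1
  · simpa using h1
  · intro b _ hb
    rw [MvPolynomial.coeff_monomial, if_neg]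
    intro h
    exact hb (toF_inj h)
  · intro h
    exact absurd (Finset.mem_univ _) h

/-! ### `T` does not vanish at `x` -/

lemma T_ne' {n H : ℕ} {T : Polynomial ℤ} {x : ℂ} (h0 : T.coeff 0 = 1) (hd : T.natDegree = n)
    (hH : ∀ l, |T.coeff l| ≤ H) (hx : ‖x‖ * ((H : ℝ) + 2) ^ (n + 1) ≤ 1) :
    Polynomial.aeval x T ≠ 0 := by
  have hn : n < 2 ^ n := Nat.lt_two_pow_self
  have hH0 : (0 : ℝ) ≤ H := by positivity
  have h1N : n * H < (H + 2) ^ (n + 1) := by
    calc n * H ≤ 2 ^ n * H := Nat.mul_le_mul_right _ hn.le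
      _ ≤ (H + 2) ^ n * H := Nat.mul_le_mul_right _ (Nat.pow_le_pow_left (by omega) _)
      _ < (H + 2) ^ n * (H + 2) := Nat.mul_lt_mul_of_pos_left (by omega) (by positivity)
      _ = (H + 2) ^ (n + 1) := by rw [pow_succ]
  have h1 : (n : ℝ) * H < ((H : ℝ) + 2) ^ (n + 1) := by exact_mod_cast h1N
  have hx1 : ‖x‖ ≤ 1 := by
    have h2 : (1 : ℝ) ≤ ((H : ℝ) + 2) ^ (n + 1) := one_le_pow₀ (by linarith)
    calc ‖x‖ = ‖x‖ * 1 := (mul_one _).symm
      _ ≤ ‖x‖ * ((H : ℝ) + 2) ^ (n + 1) := mul_le_mul_of_nonneg_left h2 (norm_nonneg _)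
      _ ≤ 1 := hx
  rw [Polynomial.aeval_eq_sum_range, hd, Finset.sum_range_succ']
  have h2 : ‖∑ k ∈ Finset.range n, T.coeff (k + 1) • x ^ (k + 1)‖ ≤ n * (H * ‖x‖) := by
    refine (norm_sum_le _ _).trans ?_
    have h3 : ∀ k ∈ Finset.range n, ‖T.coeff (k + 1) • x ^ (k + 1)‖ ≤ H * ‖x‖ := by
      intro k _
      rw [zsmul_eq_mul, norm_mul, Complex.norm_intCast, norm_pow, pow_succ]
      have h4 : |((T.coeff (k + 1) : ℤ) : ℝ)| ≤ H := by exact_mod_cast hH (k + 1)
      have h5 : ‖x‖ ^ k * ‖x‖ ≤ ‖x‖ := by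
        have : ‖x‖ ^ k ≤ 1 := pow_le_one₀ (norm_nonneg _) hx1
        calc ‖x‖ ^ k * ‖x‖ ≤ 1 * ‖x‖ := mul_le_mul_of_nonneg_right this (norm_nonneg _)
          _ = _ := one_mul _
      exact mul_le_mul h4 h5 (by positivity) hH0
    refine (Finset.sum_le_sum h3).trans ?_
    simp
  have h6 : (n : ℝ) * (H * ‖x‖) < 1 := by
    rcases (norm_nonneg x).eq_or_lt with h | h
    · rw [← h]; simp
    · calc (n : ℝ) * (H * ‖x‖) = n * H * ‖x‖ := by ring
        _ < ((H : ℝ) + 2) ^ (n + 1) * ‖x‖ := mul_lt_mul_of_pos_right h1 h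
        _ ≤ 1 := by rw [mul_comm]; exact hx
  rw [h0]
  intro h8
  simp only [pow_zero, one_smul] at h8
  have h9 : ∑ k ∈ Finset.range n, T.coeff (k + 1) • x ^ (k + 1) = -1 := by
    linear_combination h8
  rw [h9, norm_neg, norm_one] at h2
  linarith

theorem valc_of (h : S_GK) : S_valc := by
  intro n Δ m A
  obtain ⟨D, hD⟩ := exists_D n Δ (2 * A * m)
  obtain ⟨E₀, hE₀⟩ := Pool.Agent.Y419.LB.base_holds n
  obtain ⟨E₁, hE₁⟩ := t_mon n n (D + Δ)
  obtain ⟨E₂, hE₂⟩ := h m A (Fintype.card (Mn n (D + Δ))) n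
  refine ⟨((E₀ + 1) * E₁ + 1) * E₂ + (n + 1) + (E₀ + 1),
    fun H T K x X hfd hrk hx0 hPt hxE hXA h0 hd hsq hH P hP hPv => ?_⟩
  have hB : (1 : ℝ) ≤ (H : ℝ) + 2 := one_le_base H
  have hH0 : (0 : ℝ) ≤ H := by positivity
  have hxR : ∀ a, a ≤ ((E₀ + 1) * E₁ + 1) * E₂ + (n + 1) + (E₀ + 1) →
      ‖(x : ℂ)‖ * ((H : ℝ) + 2) ^ a ≤ 1 := fun a ha =>
    (mul_le_mul_of_nonneg_left (pow_le_pow_right₀ hB ha) (norm_nonneg _)).trans hxE
  have hxp : 0 < ‖(x : ℂ)‖ := by
    rw [norm_pos_iff]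
    exact_mod_cast hx0
  have hG := hE₀ H T h0 hd.le hH
  have hG2 := (hE₁ _ T (fun s : Fin n => F T s) hG).mono le_rfl (pow_base H _ _)
  by_contra hPne
  set PK : MvPolynomial (Fin n) K := MvPolynomial.map (algebraMap ℚ K) P with hPK
  have hPK0 : PK ≠ 0 := by
    intro h1
    apply hPne
    apply MvPolynomial.map_injective (algebraMap ℚ K) (algebraMap ℚ K).injective
    rw [← hPK, h1, map_zero]
  have hPKd : PK.totalDegree ≤ Δ := by
    refine le_trans ?_ hP
    unfold MvPolynomial.totalDegree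
    exact Finset.sup_mono (MvPolynomial.support_map_subset _ _)
  have hPKv : MvPolynomial.aeval (fun s : Fin n => evc (x : ℂ) (F T s)) PK = 0 := by
    rw [hPK, MvPolynomial.aeval_map_algebraMap]
    exact hPv
  -- enumeration
  let eqv : Fin (Fintype.card (Mn n (D + Δ))) ≃ Mn n (D + Δ) := (Fintype.equivFin _).symm
  let eqv' : Fin (Fintype.card (Mn n D)) ≃ Mn n D := (Fintype.equivFin _).symm
  let e₀ : Mn n (D + Δ) := ⟨fun _ => 0, by simp⟩
  -- convergence
  have hcv : ∀ s : Fin n, Cvc (x : ℂ) (F T s) := by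
    intro s
    refine Cvc.of_bound (A := ((H : ℝ) + 2) ^ E₀) (B := ((H : ℝ) + 2) ^ E₀) (by positivity) ?_
      fun m => ?_
    · refine lt_of_lt_of_le ?_ (hxR (E₀ + 1) (by omega))
      rw [mul_comm]
      refine mul_lt_mul_of_pos_left ?_ hxp
      exact pow_lt_pow_right₀ (by linarith) (by omega)
    · have := hG.size (some s) m
      rw [pow_succ'] at this
      rw [Complex.norm_ratCast]
      exact this
  have hmo : ∀ e : Mn n (D + Δ), evc (x : ℂ) (mo (fun s : Fin n => F T s) (D + Δ) e) =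
      ∏ s : Fin n, (evc (x : ℂ) (F T s)) ^ (e.1 s : ℕ) := by
    intro e
    unfold mo
    rw [Cvc.ev_prod _ _ fun s _ => (hcv s).pow _]
    exact Finset.prod_congr rfl fun s _ => (hcv s).ev_pow _
  refine hE₂ _ T (fun j => mo (fun s : Fin n => F T s) (D + Δ) (eqv j)) (eqv.symm e₀) K x X hfd hrk hx0
    hPt (hG2.reindex eqv) ?_ ?_ ?_ hXA (T_ne' h0 hd hH (hxR _ (by omega))) (Fintype.card (Mn n D))
    (fun r j => vec PK (D + Δ) (eqv' r) (eqv j)) ?_ ?_ hD
  · rw [Equiv.apply_symm_apply]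
    simp [mo, e₀]
  · exact (Pool.Agent.Y796.LI.t_LI n (D + Δ) T h0 hd hsq).comp _ eqv.injective
  · refine (mul_le_mul_of_nonneg_left (pow_base H _ _) (norm_nonneg _)).trans (hxR _ (by omega))
  · rw [Fintype.linearIndependent_iff]
    intro g hg r
    have h1 := vec_indep (D := D) PK hPK0 hPKd (fun e' => g (eqv'.symm e')) (by
      intro e
      have h2 := congrFun hg (eqv.symm e)
      rw [Finset.sum_apply] at h2
      rw [← Equiv.sum_comp eqv']
      simp only [Pi.smul_apply, smul_eq_mul, Equiv.apply_symm_apply, Pi.zero_apply] at h2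
      simp only [Equiv.symm_apply_apply]
      exact h2) (eqv' r)
    simpa using h1
  · intro r
    have h1 : MvPolynomial.aeval (fun s : Fin n => evc (x : ℂ) (F T s))
        (PK * MvPolynomial.monomial (toF (eqv' r)) (1 : K)) = 0 := by
      rw [map_mul, hPKv, zero_mul]
    have h2 : (PK * MvPolynomial.monomial (toF (eqv' r)) (1 : K)).totalDegree ≤ D + Δ := by
      refine (MvPolynomial.totalDegree_mul _ _).trans ?_
      have := deg_toF (eqv' r) (1 : K)
      omega
    rw [aeval_sum' _ h2] at h1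
    rw [Equiv.sum_comp eqv (fun e => ((vec PK (D + Δ) (eqv' r) e : K) : ℂ) *
      evc (x : ℂ) (mo (fun s : Fin n => F T s) (D + Δ) e))]
    simp only [hmo]
    exact h1

end Pool.Agent.Y419.AL
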